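import Pool.Agent.helper64.D2.SpecR

/-!
# Project dc: module RLI (Lipschitz functions with small moment are small)
-/

set_option autoImplicit false

open Filter Topology
open scoped commutatorElement

namespace Pool.Agent.helper64.D2

theorem RLI_supp (X : ℝ → ℝ) (p q : ℝ) (h : ∀ x : ℝ, x ∉ Set.Icc p q → X x = 0) (x : ℝ)
    (hx : x ∉ Set.Icc p q) : d2 X x = 0 := by
  have hopen : IsOpen (Set.Icc p q)ᶜ := isClosed_Icc.isOpen_compl
  have h1 : ∀ y ∈ (Set.Icc p q)ᶜ, deriv X y = 0 := by
    intro y hy
    have h2 : X =ᶠ[𝓝 y] fun _ => (0 : ℝ) := by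
      filter_upwards [hopen.mem_nhds hy] with z hz
      exact h z hz
    rw [h2.deriv_eq]
    simp
  have h3 : deriv X =ᶠ[𝓝 x] fun _ => (0 : ℝ) := by
    filter_upwards [hopen.mem_nhds hx] with z hz
    exact h1 z hz
  unfold d2
  rw [h3.deriv_eq]
  simp

theorem RLI : RLI_stmt := by
  intro X a L μ δ hSt hδ hδ5 hL hμ hlt x0
  obtain ⟨-, hsupp, -, hlip⟩ := hSt
  by_contra hcon
  have hx0 : δ < |d2 X x0| := not_le.1 hcon
  have hmem : x0 ∈ Set.Icc (3 / 10 : ℝ) (6 / 10) := by
    by_contra hm
    rw [RLI_supp X _ _ hsupp x0 hm] at hx0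
    simp at hx0
    linarith
  have hL0 : 0 < L := by linarith
  have hcont : Continuous (d2 X) := by
    have h : LipschitzWith (Real.toNNReal L) (d2 X) := by
      apply LipschitzWith.of_dist_le_mul
      intro x y
      rw [Real.dist_eq, Real.dist_eq, Real.coe_toNNReal L hL0.le]
      exact hlip x y
    exact h.continuous
  set l : ℝ := δ / (2 * L) with hl
  have hl0 : 0 < l := by positivity
  have hLl : L * l = δ / 2 := by
    rw [hl]; field_simp
  have hl1 : l ≤ 1 / 10 := by
    rw [hl, div_le_iff₀ (by positivity)]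
    nlinarith
  have hfc : Continuous (fun x => Real.cosh (μ * d2 X x) - 1) :=
    (Real.continuous_cosh.comp (continuous_const.mul hcont)).sub continuous_const
  have hnn : ∀ x, 0 ≤ Real.cosh (μ * d2 X x) - 1 := fun x => by
    have := Real.one_le_cosh (μ * d2 X x)
    linarith
  have h1 : (∫ x in x0..(x0 + l), (Real.cosh (μ * d2 X x) - 1)) ≤ KK X μ := by
    unfold KK
    apply intervalIntegral.integral_mono_interval
    · linarith [hmem.1]
    · linarith
    · linarith [hmem.2]
    · exact Eventually.of_forall hnn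
    · exact hfc.intervalIntegrable _ _
  have h2 : l * (Real.exp (μ * δ / 2) / 2 - 1) ≤
      ∫ x in x0..(x0 + l), (Real.cosh (μ * d2 X x) - 1) := by
    have h3 : (∫ _ in x0..(x0 + l), (Real.exp (μ * δ / 2) / 2 - 1)) =
        l * (Real.exp (μ * δ / 2) / 2 - 1) := by
      rw [intervalIntegral.integral_const, smul_eq_mul]
      ring
    rw [← h3]
    apply intervalIntegral.integral_mono_on (by linarith)
    · exact intervalIntegrable_const
    · exact hfc.intervalIntegrable _ _
    · intro x hx
      have h4 : δ / 2 ≤ |d2 X x| := by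
        have h5 := hlip x0 x
        have h6 : |x0 - x| ≤ l := by
          rw [abs_le]
          constructor <;> linarith [hx.1, hx.2]
        have h7 : L * |x0 - x| ≤ δ / 2 := by
          rw [← hLl]
          exact mul_le_mul_of_nonneg_left h6 hL0.le
        have h8 : |d2 X x0| - |d2 X x| ≤ |d2 X x0 - d2 X x| := abs_sub_abs_le_abs_sub _ _
        linarith
      have h9 : Real.cosh (μ * δ / 2) ≤ Real.cosh (μ * d2 X x) := by
        rw [Real.cosh_le_cosh, abs_mul, abs_of_nonneg (show 0 ≤ μ * δ / 2 by positivity),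
          abs_of_nonneg hμ, mul_div_assoc]
        exact mul_le_mul_of_nonneg_left h4 hμ
      have h10 : Real.exp (μ * δ / 2) / 2 ≤ Real.cosh (μ * δ / 2) := by
        rw [Real.cosh_eq]
        have := Real.exp_pos (-(μ * δ / 2))
        linarith
      linarith
  have h3 := h2.trans h1
  have h4 : Real.exp (μ * δ / 2) / 2 - 1 ≤ KK X μ / l := by
    rw [le_div_iff₀ hl0, mul_comm]
    exact h3
  have h5 : KK X μ / l = 2 * L * KK X μ / δ := by
    rw [hl]
    field_simp
  have h6 : 4 * L * KK X μ / δ = 2 * (2 * L * KK X μ / δ) := by ring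
  rw [h5] at h4
  rw [h6] at hlt
  linarith

end Pool.Agent.helper64.D2
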