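import Pool.Agent.helper64.D2.SpecC

/-!
# Project dc: module RSL (moving to later slots)
-/

set_option autoImplicit false

open Filter Topology
open scoped commutatorElement

namespace Pool.Agent.helper64.D2

theorem RSL_counter (k : ℕ → ℕ) (hk : StrictMono k) : ∃ c : ℕ → ℕ, ∀ i m, i < c m ↔ k i ≤ m := by
  have hex : ∀ m, ∃ i, m < k i := fun m =>
    ⟨m + 1, lt_of_lt_of_le (Nat.lt_succ_self m) (hk.id_le (m + 1))⟩
  classical
  refine ⟨fun m => Nat.find (hex m), fun i m => ?_⟩
  constructor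
  · intro h
    exact not_lt.1 (Nat.find_min (hex m) h)
  · intro h
    by_contra hcon
    have h1 : Nat.find (hex m) ≤ i := not_lt.1 hcon
    have h2 : m < k (Nat.find (hex m)) := Nat.find_spec (hex m)
    have h3 := hk.monotone h1
    omega

theorem RSL_step (k : ℕ → ℕ) (hk : StrictMono k) (F : ℕ → DD) (c : ℕ → ℕ)
    (hc : ∀ i m, i < c m ↔ k i ≤ m)
    (hP : (∀ i, place k F (k i) = F i) ∧ ∀ n, (∀ i, k i ≠ n) → place k F n = 1) (m : ℕ) :
    (c (m + 1) = c m + 1 ∧ place k F (m + 1) = F (c m)) ∨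
      (c (m + 1) = c m ∧ place k F (m + 1) = 1) := by
  by_cases h : ∃ i, k i = m + 1
  · left
    obtain ⟨i, hi⟩ := h
    have h1 : i = c m := by
      apply le_antisymm
      · by_contra hcon
        have h2 : c m < i := not_le.1 hcon
        have h3 : k (c m) < k i := hk h2
        have h4 : k (c m) ≤ m := by omega
        have := (hc (c m) m).2 h4
        omega
      · by_contra hcon
        have h2 : i < c m := not_le.1 hcon
        have := (hc i m).1 h2
        omega
    constructor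
    · apply le_antisymm
      · by_contra hcon
        have h2 : i + 1 < c (m + 1) := by rw [h1]; exact not_le.1 hcon
        have h3 := (hc (i + 1) (m + 1)).1 h2
        have h4 : k i < k (i + 1) := hk (Nat.lt_succ_self _)
        omega
      · have := (hc i (m + 1)).2 (by omega)
        omega
    · rw [← hi, hP.1 i, h1]
  · right
    have h' : ∀ i, k i ≠ m + 1 := fun i hi => h ⟨i, hi⟩
    refine ⟨?_, hP.2 _ h'⟩
    apply le_antisymm
    · by_contra hcon
      have h2 : c m < c (m + 1) := not_le.1 hcon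
      have h3 := (hc (c m) (m + 1)).1 h2
      have h4 : k (c m) ≠ m + 1 := h' _
      have h5 : c m < c m := (hc (c m) m).2 (by omega)
      omega
    · by_contra hcon
      have h2 : c (m + 1) < c m := not_le.1 hcon
      have h3 := (hc (c (m + 1)) m).1 h2
      have h4 := (hc (c (m + 1)) (m + 1)).2 (by omega)
      omega

/-- Partial products. -/
noncomputable def RSL_Q (F : ℕ → DD) (n : ℕ) : DD := ((List.range n).map F).prod

theorem RSL_Q_succ (F : ℕ → DD) (n : ℕ) : RSL_Q F (n + 1) = RSL_Q F n * F n := by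
  unfold RSL_Q
  rw [List.range_succ, List.map_append, List.prod_append]
  simp

theorem RSL_Q_range' (F : ℕ → DD) (j n : ℕ) :
    (RSL_Q F j)⁻¹ * RSL_Q F (j + n) = ((List.range' j n).map F).prod := by
  induction n with
  | zero => simp
  | succ n ih =>
    rw [← add_assoc, RSL_Q_succ, ← mul_assoc, ih, List.range'_1_concat, List.map_append,
      List.prod_append]
    simp

theorem RSL_sum (a : ℕ → ℝ) (c : ℝ) (j n : ℕ) (h : ∀ i, j ≤ i → a i ≤ c / 2 ^ i) (hc : 0 ≤ c) :
    ((List.range' j n).map a).sum ≤ 2 * c / 2 ^ j := by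
  induction n generalizing j with
  | zero =>
    simp only [List.range'_zero, List.map_nil, List.sum_nil]
    positivity
  | succ n ih =>
    rw [List.range'_succ, List.map_cons, List.sum_cons]
    have h1 := ih (j + 1) (fun i hi => h i (by omega))
    have h2 := h j le_rfl
    have h3 : 2 * c / 2 ^ (j + 1) = c / 2 ^ j := by
      rw [pow_succ]
      field_simp
    have h4 : 2 * c / 2 ^ j = c / 2 ^ j + c / 2 ^ j := by ring
    rw [h3] at h1
    rw [h4]
    linarith

theorem RSL_Sz_mono (g : DD) (a b : ℝ) (h : Sz g a) (hab : a ≤ b) : Sz g b :=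
  fun x => (h x).trans hab

theorem RSL_Sz_one (b : ℝ) (hb : 0 ≤ b) : Sz 1 b := by
  intro x
  have h1 : ev 1 = id := by funext y; exact ev_one y
  unfold d2
  rw [h1]
  have h2 : deriv (id : ℝ → ℝ) = fun _ => 1 := by
    funext y
    exact deriv_id y
  rw [h2, deriv_const]
  simpa using hb

theorem RSL_tends (C : ℝ) (c : ℕ → ℝ) (hc : ∀ᶠ m : ℕ in atTop, |c m| ≤ C / (m : ℝ) ^ 4) :
    Tendsto (fun m : ℕ => (m : ℝ) ^ 3 * c m ^ 2) atTop (𝓝 0) := by
  have h1 : Tendsto (fun m : ℕ => C ^ 2 * (1 / (m : ℝ))) atTop (𝓝 0) := by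
    have := (tendsto_one_div_atTop_nhds_zero_nat (𝕜 := ℝ)).const_mul (C ^ 2)
    simpa using this
  refine squeeze_zero' (Eventually.of_forall fun m => by positivity) ?_ h1
  filter_upwards [hc, eventually_ge_atTop 1] with m hm hm1
  have h2 : (1 : ℝ) ≤ (m : ℝ) := by exact_mod_cast hm1
  have h3 : c m ^ 2 ≤ (C / (m : ℝ) ^ 4) ^ 2 := by
    rw [← sq_abs (c m)]
    exact pow_le_pow_left₀ (abs_nonneg _) hm 2
  have h4 : (m : ℝ) ^ 3 * (C / (m : ℝ) ^ 4) ^ 2 = C ^ 2 * (1 / (m : ℝ) ^ 5) := by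
    field_simp
  have h5 : 1 / (m : ℝ) ^ 5 ≤ 1 / (m : ℝ) := by
    apply one_div_le_one_div_of_le (by linarith)
    calc (m : ℝ) = (m : ℝ) ^ 1 := (pow_one _).symm
      _ ≤ (m : ℝ) ^ 5 := pow_le_pow_right₀ h2 (by norm_num)
  calc (m : ℝ) ^ 3 * c m ^ 2 ≤ (m : ℝ) ^ 3 * (C / (m : ℝ) ^ 4) ^ 2 :=
        mul_le_mul_of_nonneg_left h3 (by positivity)
    _ = C ^ 2 * (1 / (m : ℝ) ^ 5) := h4
    _ ≤ C ^ 2 * (1 / (m : ℝ)) := mul_le_mul_of_nonneg_left h5 (sq_nonneg _)

theorem RSL (hPLC : PLC_stmt) (hPRD : PRD_stmt) (hKRS : KRS_stmt) (hSZC : SZC_stmt) : RSL_stmt := by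
  intro k k' F a C hk hk' h2 hkk' hSz ha hC hx
  classical
  obtain ⟨hi, hhi⟩ := RSL_counter k hk
  obtain ⟨lo, hlo⟩ := RSL_counter k' hk'
  have hP := hPLC k F hk
  have hP' := hPLC k' F hk'
  have hlohi : ∀ m, lo m ≤ hi m := by
    intro m
    by_contra hcon
    have h1 : hi m < lo m := not_le.1 hcon
    have h3 := (hlo (hi m) m).1 h1
    have h4 := (hhi (hi m) m).2 ((hkk' _).trans h3)
    omega
  have hC0 : 0 ≤ C := by
    refine le_trans ?_ (hC 0)
    have := ha 0
    positivity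
  have hk2 : ∀ i, 2 ≤ k i := fun i => h2.trans (hk.monotone (Nat.zero_le i))
  have hk'2 : ∀ i, 2 ≤ k' i := fun i => (hk2 i).trans (hkk' i)
  have hhi1 : ∀ m < 2, hi m = 0 := by
    intro m hm
    by_contra hcon
    have h3 := (hhi 0 m).1 (Nat.pos_of_ne_zero hcon)
    have := hk2 0
    omega
  have hlo1 : ∀ m < 2, lo m = 0 := by
    intro m hm
    have := hlohi m
    have := hhi1 m hm
    omega
  let V : ℕ → DD := fun m => (RSL_Q F (lo m))⁻¹ * RSL_Q F (hi m)
  have hVdef : ∀ m, V m = (RSL_Q F (lo m))⁻¹ * RSL_Q F (hi m) := fun m => rfl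
  have hV1 : ∀ m < 2, V m = 1 := by
    intro m hm
    rw [hVdef, hhi1 m hm, hlo1 m hm, inv_mul_cancel]
  -- the relation
  have hrel : place k' F * V = sh V * place k F := by
    funext m
    show place k' F m * V m = V (m - 1) * place k F m
    rcases Nat.eq_zero_or_pos m with rfl | hm
    · rw [hP.2 0 (fun i => by have := hk2 i; omega), hP'.2 0 (fun i => by have := hk'2 i; omega)]
      simp
    · obtain ⟨n, rfl⟩ : ∃ n, m = n + 1 := ⟨m - 1, by omega⟩
      rw [Nat.add_sub_cancel, hVdef, hVdef]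
      rcases RSL_step k' hk' F lo hlo hP' n with ⟨e1, e2⟩ | ⟨e1, e2⟩ <;>
      rcases RSL_step k hk F hi hhi hP n with ⟨e3, e4⟩ | ⟨e3, e4⟩
      · rw [e1, e2, e3, e4, RSL_Q_succ, RSL_Q_succ]; group
      · rw [e1, e2, e3, e4, RSL_Q_succ]; group
      · rw [e1, e2, e3, e4, RSL_Q_succ]; group
      · rw [e1, e2, e3, e4]; group
  -- admissibility of V
  have hVsz : ∀ m : ℕ, 2 * (C / ((m : ℝ) + 1) ^ 4) ≤ 1 / 16 →
      Sz (V m) (4 * (C / ((m : ℝ) + 1) ^ 4)) := by
    intro m hm
    have hc0 : 0 ≤ C / ((m : ℝ) + 1) ^ 4 := by positivity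
    have ha' : ∀ i, lo m ≤ i → a i ≤ C / ((m : ℝ) + 1) ^ 4 / 2 ^ i := by
      intro i hi'
      have h3 : m < k' i := by
        by_contra hcon
        have := (hlo i m).2 (not_lt.1 hcon)
        omega
      have h4 : ((m : ℝ) + 1) ≤ (k' i : ℝ) := by exact_mod_cast h3
      rw [div_div, le_div_iff₀ (by positivity), ← mul_assoc]
      refine le_trans ?_ (hC i)
      have h5 : ((m : ℝ) + 1) ^ 4 ≤ (k' i : ℝ) ^ 4 := pow_le_pow_left₀ (by positivity) h4 4
      have h6 := mul_le_mul_of_nonneg_left h5 (ha i)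
      exact mul_le_mul_of_nonneg_right h6 (by positivity)
    have hsum := RSL_sum a (C / ((m : ℝ) + 1) ^ 4) (lo m) (hi m - lo m) ha' hc0
    have hsum2 : ((List.range' (lo m) (hi m - lo m)).map a).sum ≤ 2 * (C / ((m : ℝ) + 1) ^ 4) := by
      refine hsum.trans ?_
      apply div_le_self (by positivity)
      exact one_le_pow₀ (by norm_num)
    have hl := hPRD ((List.range' (lo m) (hi m - lo m)).map (fun i => (F i, a i))) (by
      intro z hz
      obtain ⟨i, -, rfl⟩ := List.mem_map.1 hz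
      exact ⟨hSz i, ha i⟩) (by
      rw [List.map_map]
      exact hsum2.trans hm)
    rw [List.map_map, List.map_map] at hl
    have hV : V m = ((List.range' (lo m) (hi m - lo m)).map F).prod := by
      rw [← RSL_Q_range', hVdef, Nat.add_sub_cancel' (hlohi m)]
    rw [hV]
    refine RSL_Sz_mono _ _ _ hl ?_
    have h9 : ((List.range' (lo m) (hi m - lo m)).map (Prod.snd ∘ fun i => (F i, a i))).sum
        = ((List.range' (lo m) (hi m - lo m)).map a).sum := rfl
    rw [h9]
    linarith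
  have hevt : ∀ᶠ m : ℕ in atTop, 2 * (C / ((m : ℝ) + 1) ^ 4) ≤ 1 / 16 := by
    have h1 : Tendsto (fun m : ℕ => 2 * C * (1 / ((m : ℝ) + 1))) atTop (𝓝 0) := by
      have := (tendsto_one_div_add_atTop_nhds_zero_nat (𝕜 := ℝ)).const_mul (2 * C)
      simpa using this
    filter_upwards [h1.eventually (gt_mem_nhds (show (0 : ℝ) < 1 / 16 by norm_num))] with m hm
    refine le_trans ?_ hm.le
    have h3 : (1 : ℝ) ≤ (m : ℝ) + 1 := by linarith [(Nat.cast_nonneg m : (0 : ℝ) ≤ m)]
    have h5 : 1 / ((m : ℝ) + 1) ^ 4 ≤ 1 / ((m : ℝ) + 1) := by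
      apply one_div_le_one_div_of_le (by linarith)
      calc (m : ℝ) + 1 = ((m : ℝ) + 1) ^ 1 := (pow_one _).symm
        _ ≤ ((m : ℝ) + 1) ^ 4 := pow_le_pow_right₀ h3 (by norm_num)
    calc 2 * (C / ((m : ℝ) + 1) ^ 4) = 2 * C * (1 / ((m : ℝ) + 1) ^ 4) := by ring
      _ ≤ 2 * C * (1 / ((m : ℝ) + 1)) := mul_le_mul_of_nonneg_left h5 (by positivity)
  have hAdmV : Adm V := by
    refine ⟨hV1, ?_⟩
    choose bd hbd using hSZC.2.2.2.2
    refine ⟨fun m => if 2 * (C / ((m : ℝ) + 1) ^ 4) ≤ 1 / 16 then 4 * (C / ((m : ℝ) + 1) ^ 4)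
      else bd (V m), ?_, ?_⟩
    · apply RSL_tends (4 * C)
      filter_upwards [hevt, eventually_ge_atTop 1] with m hm hm1
      have h2' : (1 : ℝ) ≤ (m : ℝ) := by exact_mod_cast hm1
      rw [if_pos hm, abs_of_nonneg (by positivity), mul_div_assoc]
      apply mul_le_mul_of_nonneg_left _ (by norm_num)
      apply div_le_div_of_nonneg_left hC0 (by positivity)
      exact pow_le_pow_left₀ (by positivity) (by linarith) 4
    · intro m
      by_cases hm : 2 * (C / ((m : ℝ) + 1) ^ 4) ≤ 1 / 16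
      · simp only [if_pos hm]
        exact hVsz m hm
      · simp only [if_neg hm]
        exact hbd (V m)
  have hAdmy : Adm (place k F) := by
    refine ⟨fun m hm => hP.2 m (fun i => by have := hk2 i; omega), fun m => C / (m : ℝ) ^ 4, ?_, ?_⟩
    · apply RSL_tends C
      filter_upwards with m
      rw [abs_of_nonneg (by positivity)]
    · intro m
      by_cases h : ∃ i, k i = m
      · obtain ⟨i, rfl⟩ := h
        rw [hP.1 i]
        refine RSL_Sz_mono _ _ _ (hSz i) ?_
        have h3 : 0 < (k i : ℝ) := by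
          have := hk2 i
          exact_mod_cast (by omega : 0 < k i)
        rw [le_div_iff₀ (by positivity)]
        refine le_trans ?_ (hC i)
        have h4 : (k i : ℝ) ≤ (k' i : ℝ) := by exact_mod_cast hkk' i
        have h5 : (k i : ℝ) ^ 4 ≤ (k' i : ℝ) ^ 4 := pow_le_pow_left₀ h3.le h4 4
        have h6 := mul_le_mul_of_nonneg_left h5 (ha i)
        refine h6.trans ?_
        apply le_mul_of_one_le_right (by have := ha i; positivity)
        exact one_le_pow₀ (by norm_num)
      · rw [hP.2 m (fun i hi' => h ⟨i, hi'⟩)]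
        exact RSL_Sz_one _ (by positivity)
  have hfin := hKRS (place k' F) (place k F) V hAdmV hAdmy hrel
  have h10 : (place k F)⁻¹ ∈ K0 := by
    have := K0.mul_mem (K0.inv_mem hx) hfin
    rwa [inv_mul_cancel_left] at this
  have := K0.inv_mem h10
  rwa [inv_inv] at this

end Pool.Agent.helper64.D2
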